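import Pool.Agent.H53.Per.Tmp
import Pool.Agent.H52.Tri.Ann

set_option autoImplicit false

/-! MP_2e6055, module F5: the assembly, closed statements (helper87).
`DET7A` (helper53), `DET7B` (helper74), `EVR` (helper52), `F5` from them (helper87). -/

namespace Pool.Agent.H87.F5

open Pool.Agent.H7.UC Pool.Agent.H74.Tri Pool.Agent.H75.Perc Pool.Agent.H75.Lv Pool.Agent.H55.Lane
open Pool.Agent.H53.Per
open Pool.Agent.H52.Tri (AX)

/-- the colour `c` of `T3B` -/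
def Col7 (C : Ch) (U : Finset Fc) (ω : Fc → Bool) (p : Pos) (t y : ℤ) (c : Bool) : Prop :=
  ∀ (e : ℤ) (P : Set Fc) (f : Fc), (e = 1 ∨ e = -1) →
  P ⊆ Anr C U p t y → sbase C p t y e ∈ P → Jn P (sbase C p t y e) f → (∃ g, g ∉ U ∧ adjF f g) →
  ∃ f' ∈ P, ∃ g, g ∉ U ∧ adjF f' g ∧ (e = -1 → ω g = c) ∧ (e = 1 → ω g = !c)

/-- the two rings (`2 R .. 4 R - 1` black, `4 R .. 8 R` white, the faces off `U` are good) -/
def Rg7 (U : Finset Fc) (v : Fc) (R : ℤ) (ω : Fc → Bool) : Prop :=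
  AX v (2 * R).toNat (4 * R - 1).toNat (fun z => z ∈ U → ω z = true) ∧
  AX v (4 * R).toNat (8 * R).toNat (fun z => z ∈ U → ω z = false)

/-- EVR (helper52): the first template, the rays and the rings have positive probability. -/
def EVR : Prop := ∀ K : ℕ, ∃ pK : ℝ, 0 < pK ∧ ∃ t0 : ℤ, ∀ (C : Ch) (U : Finset Fc) (ω : Fc → Bool)
  (p : Pos) (v z0 : Fc) (R t b k e y : ℤ), Sit7 C U ω p v z0 R t b k e y → t0 ≤ t → R ≤ K * t →
  ∀ c : Bool, pK ≤ Pr U (fun w => Ev7 C U p t b k e y c (mixc U w ω) ∧ Rg7 U v R (mixc U w ω))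

/-- the run: row `-k`, columns `i1 .. i2` -/
def Rn (C : Ch) (k i1 i2 : ℤ) : Set Fc := {f | C.Y f = -k ∧ i1 ≤ C.X f ∧ C.X f ≤ i2}

/-- what is known at the first visit `i` of the end box; `D` = unexplored component of `z0`, `q` = tip -/
structure Aft (C : Ch) (U : Finset Fc) (ω : Fc → Bool) (p : Pos) (v z0 : Fc) (R t b k e : ℤ) (i : ℕ)
    (i1 i2 : ℤ) : Prop where
  first : First U ω p (Bx z0 e) i
  /-- nothing of the end box is revealed -/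
  box : ∀ f ∈ Bx z0 e, f ∉ Rev ω p i
  x1 : C.X (ph (orb ω p i)) = e
  x2 : |C.Y (ph (orb ω p i)) + 2 * k| ≤ 2 * t
  i1l : b - 11 * t < i1
  i1b : i1 ≤ b
  i2b : b + 1 ≤ i2
  i2l : i2 < b + 11 * t
  run : ∀ f ∈ Rn C k i1 i2, f ∈ unx U ω p i z0
  /-- `z0` is joined to a face of the run off the ball of radius `e / 4` around the face ahead -/
  near : ∃ g ∈ Rn C k i1 i2, Jn {a | a ∈ unx U ω p i z0 ∧ a ∉ Bx (ph (orb ω p i)) (e / 4)} z0 g
  /-- the pocket is in the box of radius `8 R` -/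
  big : ∀ f, Jn {a | a ∈ unx U ω p i z0 ∧ a ∉ Rn C k i1 i2} z0 f → f ∈ Bx v (8 * R)
  /-- both colours off `U` are seen from the unexplored component, not from the pocket -/
  col : ∀ c : Bool, ∃ f ∈ unx U ω p i z0, (∃ x, x ∉ U ∧ adjF f x ∧ ω x = c) ∧
    ¬ Jn {a | a ∈ unx U ω p i z0 ∧ a ∉ Rn C k i1 i2} z0 f

/-- DET7A (helper53): from `CONF1, CONF2, COR7, OUT7, RUN7, PTH7, LOOP, REVC` and RINGS. -/
def DET7A : Prop := ∀ (C : Ch) (U : Finset Fc) (ω : Fc → Bool) (p : Pos) (v z0 : Fc)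
  (R t b k e y : ℤ), Sit7 C U ω p v z0 R t b k e y → ∀ c : Bool, Col7 C U ω p t y c →
  Ev7 C U p t b k e y c ω → Rg7 U v R ω → ∃ (i : ℕ) (i1 i2 : ℤ), Aft C U ω p v z0 R t b k e i i1 i2

/-- DET7B (helper74): the pocket and the visibility of both colours at the first visit. -/
def DET7B : Prop := ∀ (C : Ch) (U : Finset Fc) (ω : Fc → Bool) (p : Pos) (v z0 : Fc)
  (R t b k e y : ℤ) (u : ℕ), Sit7 C U ω p v z0 R t b k e y → 12 * t ≤ u → e + 4 * u + 4 ≤ b →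
  ∀ (i : ℕ) (i1 i2 : ℤ), Aft C U ω p v z0 R t b k e i i1 i2 →
  St (unx U ω p i z0) ω ∧ IsTip (unx U ω p i z0) ω (orb ω p i) ∧ Bx z0 e ⊆ unx U ω p i z0 ∧
  Pock (unx U ω p i z0) ω z0 (C.pt b (-k)) u (8 * R + e) ∧
  TB (unx U ω p i z0) ω z0 (Bx (ph (orb ω p i)) (e / 4))

/-! ## from `DET7` to `F5` -/

/-- CENV: CEN (helper93, helper21), read by helper12's `vis_ge'`: from a central state the interface
comes to `Bx v (R / 2)` with positive probability. -/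
def CENV : Prop := ∀ s0 : ℝ, 0 < s0 → ∃ c1 : ℝ, 0 < c1 ∧ ∃ R0 : ℤ, ∀ R : ℤ, R0 ≤ R →
  ∀ (U : Finset Fc) (col : Fc → Bool) (v : Fc) (p : Pos), St U col → IsTip U col p →
  ph p ∈ Bx v R → Bx v R ⊆ U → s0 ≤ (R : ℝ) ^ ((1 / 4) : ℝ) * Pool.Agent.H93.SM.gv U col v →
  c1 ≤ vis U col (Bx v (R / 2))

/-- VISD: from `VIS4` (chart, `t = e / 2000`, `y`): if both colours are seen off the ball of radius
`e / 4` around the face ahead then the whole middle of the box is visited. -/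
def VISD : Prop := ∃ s3 : ℝ, 0 < s3 ∧ ∃ e0 : ℤ, ∀ (D : Finset Fc) (ω : Fc → Bool) (q : Pos)
  (z0 : Fc) (e : ℤ), e0 ≤ e → St D ω → IsTip D ω q → ph q ∈ Bx z0 e → Bx z0 e ⊆ D →
  TB D ω z0 (Bx (ph q) (e / 4)) → ∀ v ∈ Bx z0 (e / 8), s3 ≤ vis D ω (Bx v (e / 100))

/-- CHT7: the chart and the row of the ray. -/
def CHT7 : Prop := ∀ (U : Finset Fc) (ω : Fc → Bool) (p : Pos) (v z0 : Fc) (R t b k e : ℤ),
  St U ω → IsTip U ω p → ph p ∈ Bx v R → Bx v R ⊆ U → 2 ≤ t → 100 * t ≤ k → 4 * k ≤ e → 8 * e ≤ b →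
  R = 4 * b → v ∈ Bx z0 e → TB U ω v (Bx (ph p) (40 * t)) →
  ∃ (C : Ch) (y : ℤ), Sit7 C U ω p v z0 R t b k e y

end Pool.Agent.H87.F5
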