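import Pool.Agent.H87.F5.Asm
import Pool.Agent.H58.TA.Ret

set_option autoImplicit false

/-! MP_2e6055, module F5: `F5` from the closed statements (helper87). -/

namespace Pool.Agent.H87.F5

open Pool.Agent.H7.UC Pool.Agent.H74.Tri Pool.Agent.H75.Perc Pool.Agent.H75.Lv Pool.Agent.H55.Lane
open Pool.Agent.H53.Per
open Pool.Agent.H52.Tri (AX)

/-- DET7 (helper53): what happens at the first visit of the end box. -/
def DET7 : Prop := ∀ (C : Ch) (U : Finset Fc) (ω : Fc → Bool) (p : Pos) (v z0 : Fc)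
  (R t b k e y : ℤ) (u : ℕ), Sit7 C U ω p v z0 R t b k e y → 12 * t ≤ u → e + 4 * u + 4 ≤ b →
  ∀ c : Bool, Col7 C U ω p t y c → Ev7 C U p t b k e y c ω → Rg7 U v R ω →
  ∃ i : ℕ, First U ω p (Bx z0 e) i ∧
  St (unx U ω p i z0) ω ∧ IsTip (unx U ω p i z0) ω (orb ω p i) ∧ Bx z0 e ⊆ unx U ω p i z0 ∧
  ph (orb ω p i) ∈ Bx z0 e ∧
  Pock (unx U ω p i z0) ω z0 (C.pt b (-k)) u (8 * R + e) ∧
  TB (unx U ω p i z0) ω z0 (Bx (ph (orb ω p i)) (e / 4))

theorem det7_of (hA : DET7A) (hB : DET7B) : DET7 := by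
  intro C U ω p v z0 R t b k e y u hS h1 h2 c hc hE hR
  obtain ⟨i, i1, i2, h⟩ := hA C U ω p v z0 R t b k e y hS c hc hE hR
  obtain ⟨a1, a2, a3, a4, a5⟩ := hB C U ω p v z0 R t b k e y u hS h1 h2 i i1 i2 h
  have hf := h.first
  obtain ⟨⟨f, hf1, hf2⟩, _⟩ := hf
  exact ⟨i, h.first, a1, a2, a3, hf2.2.1 ▸ hf1, a4, a5⟩

theorem mixc_off {U w : Finset Fc} {col : Fc → Bool} (f : Fc) (h : f ∉ U) : mixc U w col f = col f := by
  unfold mixc
  rw [if_neg h]

theorem tb_congr {U B : Finset Fc} {v : Fc} {c c' : Fc → Bool} (h : TB U c v B)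
    (hc : ∀ f, f ∉ U → c' f = c f) : TB U c' v B := by
  intro a
  obtain ⟨f, g, h1, h2, h3, h4⟩ := h a
  exact ⟨f, g, h1, h2, h3, by rw [hc g h2]; exact h4⟩

theorem ent_congr {C : Ch} {U : Finset Fc} {c c' : Fc → Bool} {p : Pos} {v : Fc} {R t y : ℤ}
    (h : Ent C U c p v R t y) (hc : ∀ f, f ∉ U → c' f = c f) : Ent C U c' p v R t y where
  st := Pool.Agent.H58.TA.st_congr h.st hc
  tip := Pool.Agent.H58.TA.tip_congr h.tip hc
  box := h.box
  t1 := h.t1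
  tR := h.tR
  x := h.x
  y1 := h.y1
  y2 := h.y2
  y3 := h.y3
  tb := tb_congr h.tb hc

theorem sit7_congr {C : Ch} {U : Finset Fc} {c c' : Fc → Bool} {p : Pos} {v z0 : Fc}
    {R t b k e y : ℤ} (h : Sit7 C U c p v z0 R t b k e y) (hc : ∀ f, f ∉ U → c' f = c f) :
    Sit7 C U c' p v z0 R t b k e y where
  ent := ent_congr h.ent hc
  c := h.c
  num := h.num

theorem col7_congr {C : Ch} {U : Finset Fc} {c c' : Fc → Bool} {p : Pos} {t y : ℤ} {a : Bool}
    (h : Col7 C U c p t y a) (hc : ∀ f, f ∉ U → c' f = c f) : Col7 C U c' p t y a := by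
  intro e P f h1 h2 h3 h4 h5
  obtain ⟨f', hf', g, h6, h7, h8, h9⟩ := h e P f h1 h2 h3 h4 h5
  exact ⟨f', hf', g, h6, h7, fun h => by rw [hc g h6]; exact h8 h,
    fun h => by rw [hc g h6]; exact h9 h⟩

/-- the geometric constants -/
def gm (N h : ℤ) : Gm := ⟨N, h, N * (h / 2), -(h / 8)⟩

theorem gm_ok {N h : ℤ} (hN : 64 ≤ N) (hh : 64 ≤ h) (h8 : 8 ∣ h) : (gm N h).Ok := by
  obtain ⟨q, rfl⟩ := h8
  have e1 : 8 * q / 2 = 4 * q := by omega
  have e2 : 8 * q / 8 = q := by omega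
  have hq : 8 ≤ q := by omega
  have hNq : 64 * 8 ≤ N * q := by nlinarith
  have hqN : 64 * q ≤ N * q := by nlinarith
  have a1 : |(gm N (8 * q)).px| = 4 * (N * q) := by
    show |N * (8 * q / 2)| = _
    rw [e1, abs_of_nonneg (by nlinarith)]; ring
  have a2 : |(gm N (8 * q)).py| = q := by
    show |-(8 * q / 8)| = _
    rw [e2, abs_neg, abs_of_nonneg (by omega)]
  have e3 : N * (8 * q) / 4 = 2 * (N * q) := by
    rw [show N * (8 * q) = 4 * (2 * (N * q)) by ring]; omega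
  refine ⟨hN, ⟨q, rfl⟩, hh, ?_, ?_⟩
  · show N * (8 * q) / 4 + 4 ≤ _
    rw [a1, a2, e3]
    refine le_trans ?_ (le_max_left _ _)
    linarith
  · show _ ≤ N * (8 * q)
    rw [a1, a2, max_eq_left (by linarith)]
    nlinarith

theorem pock_mono {U : Finset Fc} {col : Fc → Bool} {z0 c : Fc} {w : ℕ} {R R' : ℤ}
    (h : Pock U col z0 c w R) (hR : R ≤ R') : Pock U col z0 c w R' := by
  intro S h1 h2 f hf
  have := h S h1 h2 hf
  rw [Pool.Agent.H75.Lv.mem_Bx] at this ⊢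
  exact ⟨this.1.trans hR, this.2.trans hR⟩

theorem f5 (hDet : DET7) (hEvr : EVR) (hVis : VISD) (hCen : CENV) (hCht : CHT7) (hTbp : TBP)
    (hT3B : T3B) : F5 := by
  obtain ⟨s3, hs3, e0, hV⟩ := hVis
  refine ⟨s3, hs3, 64, fun N hN => ⟨64, fun h hh h8 => ⟨gm N h, rfl, rfl, gm_ok hN hh h8, ?_⟩⟩⟩
  intro s0 hs0
  obtain ⟨c1, hc1, R0, hC⟩ := hCen s0 hs0
  obtain ⟨M, hM, hT⟩ := hTbp c1 hc1
  obtain ⟨q, rfl⟩ := h8
  have hq : 8 ≤ q := by omega
  have hNq : 64 * q ≤ N * q := by nlinarith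
  -- the ratio `u / t`
  set K1 : ℕ := M.toNat + 100 with hK1
  have hK1M : (K1 : ℤ) = M + 100 := by rw [hK1]; push_cast; omega
  obtain ⟨pK, hpK, t0, hE⟩ := hEvr (16 * (N * q).toNat * (2 * K1))
  refine ⟨pK, hpK, K1 * (max t0 (max M 2)).toNat + e0.toNat + R0.toNat, ?_⟩
  intro u hu U col v z0 p hSt hTip hp hB hv hg
  -- numbers
  have hK1p : (0 : ℤ) < K1 := by rw [hK1M]; omega
  have hK1n : (0:ℤ) ≤ K1 := hK1p.le
  have hu1 : ((K1 * (max t0 (max M 2)).toNat + e0.toNat + R0.toNat : ℕ) : ℤ) ≤ u := by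
    exact_mod_cast hu
  push_cast at hu1
  have g2 : (max t0 (max M 2)) ≤ ((max t0 (max M 2)).toNat : ℤ) := Int.self_le_toNat _
  have g3 := Int.self_le_toNat e0
  have g4 := Int.self_le_toNat R0
  have g5 := mul_le_mul_of_nonneg_left g2 hK1n
  have g6 : (0 : ℤ) ≤ (e0.toNat : ℤ) := Int.natCast_nonneg _
  have g7 : (0 : ℤ) ≤ (R0.toNat : ℤ) := Int.natCast_nonneg _
  have hu2 : (K1 : ℤ) * max t0 (max M 2) ≤ u := by
    rw [max_comm, max_comm M] at *
    linarith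
  have g8 : (0 : ℤ) ≤ (K1 : ℤ) * max t0 (max M 2) :=
    mul_nonneg hK1n (le_max_of_le_right (le_max_of_le_right (by norm_num)))
  have hue : e0 ≤ u := by linarith
  have huR : R0 ≤ u := by linarith
  set t : ℤ := (u : ℤ) / K1 with ht
  have ht1 : max t0 (max M 2) ≤ t := by
    rw [ht, Int.le_ediv_iff_mul_le hK1p, mul_comm]; exact hu2
  have ht0 : t0 ≤ t := (le_max_left _ _).trans ht1
  have htM : M ≤ t := ((le_max_left _ _).trans (le_max_right _ _)).trans ht1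
  have ht2 : 2 ≤ t := ((le_max_right _ _).trans (le_max_right _ _)).trans ht1
  have hKt : (K1 : ℤ) * t ≤ u := Int.mul_ediv_self_le hK1p.ne'
  have hKt2 : (u : ℤ) < K1 * t + K1 := by
    have := Int.lt_ediv_add_one_mul_self (u : ℤ) hK1p
    rw [← ht] at this
    linarith
  have hMt : M * t + 100 * t ≤ u := by
    have : (K1 : ℤ) * t = M * t + 100 * t := by rw [hK1M]; ring
    linarith
  have hM0 : 0 ≤ M * t := by nlinarith
  have ht100 : 100 * t ≤ u := by linarith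
  set A : ℤ := q * u with hA
  set B : ℤ := N * q * u with hBd
  have hu0 : (0 : ℤ) ≤ u := Int.natCast_nonneg _
  have hA1 : 8 * (u : ℤ) ≤ A := by rw [hA]; nlinarith
  have hB1 : 64 * A ≤ B := by
    rw [hA, hBd]; nlinarith
  have eq1 : (2 * N * (8 * q) * (u : ℤ)) = 16 * B := by rw [hBd]; ring
  have eq2 : (8 * q * (u : ℤ)) = 8 * A := by rw [hA]; ring
  have eq3 : 8 * q / 2 = 4 * q := by omega
  have eq4 : 8 * q / 8 = q := by omega
  rw [eq1] at hp hB hg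
  rw [eq2] at hv ⊢
  have hv8 : 8 * A / 8 = A := by omega
  rw [hv8] at hv
  have hve : v ∈ Pool.Agent.H75.Lv.Bx z0 (8 * A) := by
    rw [Pool.Agent.H75.Lv.mem_Bx] at hv ⊢
    exact ⟨hv.1.trans (by linarith), hv.2.trans (by linarith)⟩
  -- both colours are seen
  have hvis := hC (16 * B) (by linarith) U col v p hSt hTip hp hB hg
  have hTB := hT U col p v (16 * B) (40 * t) hSt hTip hp hB (by linarith) (by nlinarith) hvis
  obtain ⟨C, y, hS⟩ := hCht U col p v z0 (16 * B) t (4 * B) A (8 * A) hSt hTip hp hB ht2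
    (by linarith) (by linarith) (by linarith) (by ring) hve hTB
  obtain ⟨c, hc⟩ := hT3B C U col p v (16 * B) t y hS.ent
  have hKK : (16 * B : ℤ) ≤ ((16 * (N * q).toNat * (2 * K1) : ℕ) : ℤ) * t := by
    push_cast
    rw [Int.toNat_of_nonneg (by nlinarith)]
    have h1 : (u : ℤ) ≤ 2 * K1 * t := by nlinarith
    have h2 : 16 * (N * q) * (u : ℤ) ≤ 16 * (N * q) * (2 * K1 * t) :=
      mul_le_mul_of_nonneg_left h1 (by nlinarith)
    calc (16 * B : ℤ) = 16 * (N * q) * u := by rw [hBd]; ring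
      _ ≤ _ := h2
      _ = _ := by ring
  refine (hE C U col p v z0 (16 * B) t (4 * B) A (8 * A) y hS ht0 hKK c).trans ?_
  refine Pr_mono ?_
  intro w hw hev
  have hoff : ∀ f, f ∉ U → mixc U w col f = col f := fun f hf => mixc_off f hf
  obtain ⟨i, hi, hStD, hTipD, hBD, hph, hPk, hTBD⟩ := hDet C U (mixc U w col) p v z0 (16 * B) t
    (4 * B) A (8 * A) y u (sit7_congr hS hoff) (by linarith) (by linarith) c
    (col7_congr hc hoff) hev.1 hev.2
  refine ⟨i, hi, ?_, ?_, ?_⟩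
  · show Pool.Agent.H75.Lv.Bx z0 (8 * q * u) ⊆ _
    rw [eq2]; exact hBD
  · obtain ⟨d, hd⟩ := exists_ce (gm N (8 * q)) C.sw C.h1 C.h2 (u : ℤ) z0
    refine ⟨d, ?_⟩
    have hce : (gm N (8 * q)).ce d u z0 = C.pt (4 * B) (-A) := by
      rw [hd]
      have hc0 : C.c = z0 := hS.c
      unfold Ch.pt gm
      simp only [eq3, eq4]
      have hx : N * (4 * q) * (u : ℤ) = 4 * B := by rw [hBd]; ring
      have hy : -q * (u : ℤ) = -A := by rw [hA]; ring
      rw [hx, hy, hc0]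
    rw [hce]
    refine pock_mono hPk ?_
    show 8 * (16 * B) + 8 * A ≤ 17 * N * (8 * q) * u
    have : 17 * N * (8 * q) * (u : ℤ) = 136 * B := by rw [hBd]; ring
    rw [this]
    linarith
  · intro v' hv'
    have e1 : (gm N (8 * q)).h * (u : ℤ) / 8 = 8 * A / 8 := by
      show 8 * q * (u : ℤ) / 8 = _
      rw [eq2]
    have e2 : (gm N (8 * q)).h * (u : ℤ) / 100 = 8 * A / 100 := by
      show 8 * q * (u : ℤ) / 100 = _
      rw [eq2]
    rw [e2]
    rw [e1] at hv'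
    exact hV _ _ _ _ (8 * A) (by linarith) hStD hTipD hph hBD hTBD v' hv'

end Pool.Agent.H87.F5
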